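import Pool.Agent.Run7.h987.RT.Iface

/-!
# Project RT (MP_fc1499_an): geometry of marker configurations (WTB, WTS, COVER, SCALE)
-/

set_option autoImplicit false

open Set
open scoped Topology

noncomputable section

namespace Pool.Agent.Run7.h937.RT

open Pool.Agent.Run7.h987.BL Pool.Agent.Run7.h987.RT

variable {k : ℕ}

theorem abs_apply_le (v : E k) (i : Fin k) : |v i| ≤ ‖v‖ := by
  have := PiLp.norm_apply_le v i
  rwa [Real.norm_eq_abs] at this

theorem mem_nb_iff {Rb : ℕ} {n m : Zk k} :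
    m ∈ nb Rb n ↔ m ≠ n ∧ ∀ i, n i - (Rb : ℤ) ≤ m i ∧ m i ≤ n i + (Rb : ℤ) := by
  unfold nb
  rw [Finset.mem_erase, Finset.mem_Icc]
  constructor
  · rintro ⟨h, h1, h2⟩
    exact ⟨h, fun i => ⟨h1 i, h2 i⟩⟩
  · rintro ⟨h, h1⟩
    exact ⟨h, fun i => (h1 i).1, fun i => (h1 i).2⟩

theorem mem_nb_of_norm {Rb : ℕ} {n m : Zk k} (h : m ≠ n)
    (hd : ‖(vec m - vec n : E k)‖ ≤ Rb) : m ∈ nb Rb n := by
  rw [mem_nb_iff]
  refine ⟨h, fun i => ?_⟩
  have h1 := (abs_apply_le (vec m - vec n : E k) i).trans hd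
  have h2 : (vec m - vec n : E k) i = (m i : ℝ) - n i := rfl
  rw [h2, abs_le] at h1
  constructor
  · have : ((n i - (Rb : ℤ) : ℤ) : ℝ) ≤ (m i : ℝ) := by
      push_cast
      linarith
    exact_mod_cast this
  · have : (m i : ℝ) ≤ ((n i + (Rb : ℤ) : ℤ) : ℝ) := by
      push_cast
      linarith
    exact_mod_cast this

theorem vec_inj {n m : Zk k} (h : (vec n : E k) = vec m) : n = m := by
  ext i
  have h1 : (vec n : E k) i = (vec m : E k) i := by rw [h]
  have h2 : (n i : ℝ) = m i := h1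
  exact_mod_cast h2

theorem norm_vec_sub_pos {n m : Zk k} (h : m ≠ n) : 0 < ‖(vec m - vec n : E k)‖ := by
  rw [norm_pos_iff, sub_ne_zero]
  intro h'
  exact h (vec_inj h')

/-- the numerator of the margin -/
def num (a : Zk k → ℝ) (H : ℝ) (n m : Zk k) (t : E k) : ℝ :=
  ‖t - vec m‖ ^ 2 + (ht (a m) + H) ^ 2 - (‖t - vec n‖ ^ 2 + (ht (a n) + H) ^ 2)

theorem marg_eq (a : Zk k → ℝ) (H : ℝ) (n m : Zk k) (t : E k) :
    marg a H n m t = num a H n m t / (2 * ‖(vec m - vec n : E k)‖) := rfl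

theorem marg_add (a : Zk k → ℝ) (H : ℝ) (n m : Zk k) (t v : E k) :
    marg a H n m t - ‖v‖ ≤ marg a H n m (t + v) := by
  rw [marg_eq, marg_eq]
  by_cases hd : ‖(vec m - vec n : E k)‖ = 0
  · rw [hd]
    simp
  · have hd' : 0 < ‖(vec m - vec n : E k)‖ := lt_of_le_of_ne (norm_nonneg _) (Ne.symm hd)
    have h1 : ‖t + v - vec m‖ ^ 2 = ‖t - vec m‖ ^ 2 + 2 * inner ℝ (t - vec m) v + ‖v‖ ^ 2 := by
      rw [← norm_add_sq_real]
      congr 2
      abel
    have h2 : ‖t + v - vec n‖ ^ 2 = ‖t - vec n‖ ^ 2 + 2 * inner ℝ (t - vec n) v + ‖v‖ ^ 2 := by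
      rw [← norm_add_sq_real]
      congr 2
      abel
    have h3 : inner ℝ (t - vec n) v - inner ℝ (t - vec m) v = inner ℝ (vec m - vec n : E k) v := by
      rw [← inner_sub_left]
      congr 1
      abel
    have h4 : inner ℝ (vec m - vec n : E k) v ≤ ‖(vec m - vec n : E k)‖ * ‖v‖ :=
      real_inner_le_norm _ _
    have h5 : num a H n m t - ‖v‖ * (2 * ‖(vec m - vec n : E k)‖) ≤ num a H n m (t + v) := by
      unfold num
      rw [h1, h2]
      nlinarith
    have h6 : num a H n m t / (2 * ‖(vec m - vec n : E k)‖) - ‖v‖ =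
        (num a H n m t - ‖v‖ * (2 * ‖(vec m - vec n : E k)‖)) / (2 * ‖(vec m - vec n : E k)‖) := by
      field_simp
    rw [h6]
    exact div_le_div_of_nonneg_right h5 (by positivity)

theorem marg_symm (a : Zk k → ℝ) (H : ℝ) (n m : Zk k) (t : E k) :
    marg a H m n t = - marg a H n m t := by
  rw [marg_eq, marg_eq, norm_sub_rev (vec n : E k), ← neg_div]
  congr 1
  unfold num
  ring

theorem clamp_nonneg (y : ℝ) : 0 ≤ clamp y := le_max_left _ _

theorem clamp_le_one (y : ℝ) : clamp y ≤ 1 := by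
  unfold clamp
  exact max_le zero_le_one (min_le_left _ _)

theorem clamp_pos {y : ℝ} (h : clamp y ≠ 0) : 0 < y := by
  by_contra hy
  apply h
  unfold clamp
  rw [max_eq_left]
  exact (min_le_right _ _).trans (not_lt.mp hy)

theorem clamp_one {y : ℝ} (h : 1 ≤ y) : clamp y = 1 := by
  unfold clamp
  rw [min_eq_left h]
  exact max_eq_right zero_le_one

theorem t_WTB : P_WTB := by
  classical
  intro k a Rb Λ H θ n v
  have hfac0 : ∀ m, 0 ≤ (if a m = 0 then (1 : ℝ) else clamp (marg a H n m (vec n + v) - θ)) := by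
    intro m
    split_ifs
    · exact zero_le_one
    · exact clamp_nonneg _
  have hfac1 : ∀ m, (if a m = 0 then (1 : ℝ) else clamp (marg a H n m (vec n + v) - θ)) ≤ 1 := by
    intro m
    split_ifs
    · exact le_rfl
    · exact clamp_le_one _
  refine ⟨⟨?_, ?_⟩, ?_, ?_, ?_⟩
  · unfold wgt
    split_ifs
    · exact le_rfl
    · refine Finset.prod_nonneg fun m _ => ?_
      convert hfac0 m
  · unfold wgt
    split_ifs
    · exact zero_le_one
    · refine Finset.prod_le_one (fun m _ => ?_) (fun m _ => ?_)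
      · convert hfac0 m
      · convert hfac1 m
  · intro hpos
    unfold wgt at hpos
    split_ifs at hpos with hc
    · exact absurd hpos (lt_irrefl _)
    · push Not at hc
      refine ⟨hc.1, hc.2, fun m hm ham => ?_⟩
      have h1 := (Finset.prod_ne_zero_iff.mp hpos.ne') m hm
      rw [if_neg ham] at h1
      have := clamp_pos h1
      linarith
  · intro han hv hall
    unfold wgt
    rw [if_neg (by push Not; exact ⟨han, hv⟩)]
    refine Finset.prod_eq_one fun m hm => ?_
    split_ifs with ham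
    · rfl
    · exact clamp_one (by have := hall m hm ham; linarith)
  · intro q
    unfold wgt
    have hcond : ((fun j => a (j + q)) n = 0 ∨ Λ < ‖v‖) ↔ (a (n + q) = 0 ∨ Λ < ‖v‖) := Iff.rfl
    by_cases hc : a (n + q) = 0 ∨ Λ < ‖v‖
    · rw [if_pos (hcond.mpr hc), if_pos hc]
    · rw [if_neg (fun h => hc (hcond.mp h)), if_neg hc]
      refine Finset.prod_bij (fun m _ => m + q) ?_ ?_ ?_ ?_
      · intro m hm
        rw [mem_nb_iff] at hm ⊢
        refine ⟨fun h => hm.1 (add_right_cancel h), fun i => ?_⟩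
        have := hm.2 i
        simp only [Pi.add_apply]
        constructor <;> omega
      · intro m1 _ m2 _ h
        exact add_right_cancel h
      · intro m hm
        refine ⟨m - q, ?_, sub_add_cancel _ _⟩
        rw [mem_nb_iff] at hm ⊢
        refine ⟨fun h => hm.1 (by rw [← h]; exact (sub_add_cancel _ _).symm), fun i => ?_⟩
        have := hm.2 i
        simp only [Pi.add_apply] at this
        simp only [Pi.sub_apply]
        constructor <;> omega
      · intro m _
        have hm : marg (fun j => a (j + q)) H n m (vec n + v) =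
            marg a H (n + q) (m + q) (vec (n + q) + v) := by
          unfold marg
          rw [vec_add, vec_add]
          have e1 : (vec n + vec q + v - (vec m + vec q) : E k) = vec n + v - vec m := by abel
          have e2 : (vec n + vec q + v - (vec n + vec q) : E k) = vec n + v - vec n := by abel
          have e3 : (vec m + vec q - (vec n + vec q) : E k) = vec m - vec n := by abel
          rw [e1, e2, e3]
        simp only [hm]

theorem t_WTS : P_WTS := by
  intro k a Rb Λ H θ n n' v v' hθ hRb hne h1 h2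
  obtain ⟨a1, a2, a3⟩ := (t_WTB k a Rb Λ H θ n v).2.1 h1
  obtain ⟨b1, b2, b3⟩ := (t_WTB k a Rb Λ H θ n' v').2.1 h2
  by_contra hcon
  push Not at hcon
  have hd : ‖(vec n' - vec n : E k)‖ ≤ Rb := by
    have e1 : (vec n' - vec n : E k) = -((vec n + v) - (vec n' + v')) + (v - v') := by abel
    rw [e1]
    calc ‖-((vec n + v) - (vec n' + v')) + (v - v')‖
        ≤ ‖-((vec n + v) - (vec n' + v'))‖ + ‖v - v'‖ := norm_add_le _ _
      _ ≤ ‖(vec n + v) - (vec n' + v')‖ + (‖v‖ + ‖v'‖) := by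
          rw [norm_neg]
          exact add_le_add le_rfl (norm_sub_le _ _)
      _ ≤ Rb := by linarith
  have m1 := a3 n' (mem_nb_of_norm (Ne.symm hne) hd) b1
  have m2 := b3 n (mem_nb_of_norm hne (by rw [norm_sub_rev]; exact hd)) a1
  rw [marg_symm] at m2
  have m3 := marg_add a H n n' (vec n + v) ((vec n' + v') - (vec n + v))
  have e2 : (vec n + v : E k) + ((vec n' + v') - (vec n + v)) = vec n' + v' := by abel
  rw [e2, norm_sub_rev] at m3
  linarith

theorem ht_nonneg {α : ℝ} (h0 : 0 < α) (h1 : α ≤ 1) : 0 ≤ ht α := by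
  unfold ht
  have := (one_le_inv₀ h0).mpr h1
  linarith

theorem finite_ball (t : E k) (C : ℝ) : {n : Zk k | ‖t - vec n‖ ≤ C}.Finite := by
  apply (Set.finite_Icc (fun i => ⌊t i - C⌋ : Zk k) (fun i => ⌈t i + C⌉)).subset
  intro n hn
  have hn' : ‖t - vec n‖ ≤ C := hn
  rw [Set.mem_Icc]
  constructor
  · intro i
    have h1 := (abs_apply_le (t - vec n : E k) i).trans hn'
    have h2 : (t - vec n : E k) i = t i - (n i : ℝ) := rfl
    rw [h2, abs_le] at h1
    have h3 : (⌊t i - C⌋ : ℝ) ≤ n i := (Int.floor_le _).trans (by linarith)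
    exact_mod_cast h3
  · intro i
    have h1 := (abs_apply_le (t - vec n : E k) i).trans hn'
    have h2 : (t - vec n : E k) i = t i - (n i : ℝ) := rfl
    rw [h2, abs_le] at h1
    have h3 : (n i : ℝ) ≤ (⌈t i + C⌉ : ℝ) := le_trans (by linarith) (Int.le_ceil _)
    exact_mod_cast h3

theorem t_COVER : P_COVER := by
  intro k N L H a hN hL hH hC t
  obtain ⟨n0, hn0, hn0t⟩ := hC.cov t
  set D : Zk k → ℝ := fun n => ‖t - vec n‖ ^ 2 + (ht (a n) + H) ^ 2 with hD
  let S : Set (Zk k) := {n | 0 < a n ∧ D n ≤ L ^ 2 + H ^ 2}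
  have hnorm : ∀ n, 0 < a n → D n ≤ L ^ 2 + H ^ 2 → ‖t - vec n‖ ≤ L := by
    intro n hn hDn
    have h1 := ht_nonneg hn (hC.le_one n)
    simp only [hD] at hDn
    have h2 : ‖t - vec n‖ ^ 2 ≤ L ^ 2 := by nlinarith
    exact le_of_sq_le_sq h2 hL
  have hfin : S.Finite := (finite_ball t L).subset fun n hn => hnorm n hn.1 hn.2
  have hne : S.Nonempty := by
    refine ⟨n0, ?_, ?_⟩
    · rw [hn0]
      exact zero_lt_one
    · simp only [hD]
      have h1 : ht (a n0) = 0 := by
        rw [hn0]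
        unfold ht
        norm_num
      rw [h1, zero_add]
      have h2 : ‖t - vec n0‖ ≤ L := by
        rw [norm_sub_rev]
        exact hn0t
      have h3 : ‖t - vec n0‖ ^ 2 ≤ L ^ 2 := pow_le_pow_left₀ (norm_nonneg _) h2 2
      linarith
  obtain ⟨n, hnS, hmin⟩ := Set.exists_min_image S D hfin hne
  refine ⟨n, hnS.1, hnorm n hnS.1 hnS.2, ?_⟩
  intro m hmn ham
  rw [marg_eq]
  apply div_nonneg
  · have : D n ≤ D m := by
      by_cases hm : D m ≤ L ^ 2 + H ^ 2
      · exact hmin m ⟨ham, hm⟩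
      · exact hnS.2.trans (not_le.mp hm).le
    simp only [hD] at this
    unfold num
    linarith
  · positivity

theorem t_SCALE : P_SCALE := by
  intro k N L H s Rb a hN hL hH hs0 hs1 hRb hC n t han htn hmarg
  have hH0 : 0 < H := by linarith
  have hhn : 0 ≤ ht (a n) := ht_nonneg han (hC.le_one n)
  -- (i)
  have hhH : ht (a n) ≤ H := by
    obtain ⟨m0, hm0, hm0t⟩ := hC.cov t
    by_cases hmn : m0 = n
    · rw [← hmn, hm0]
      unfold ht
      norm_num
      exact hH0.le
    · have hd : ‖(vec m0 - vec n : E k)‖ ≤ 2 * L + 2 := by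
        have e1 : (vec m0 - vec n : E k) = (vec m0 - t) + (t - vec n) := by abel
        rw [e1]
        exact (norm_add_le _ _).trans (by linarith)
      have hmem : m0 ∈ nb Rb n := mem_nb_of_norm hmn (by linarith)
      have h1 := hmarg m0 hmem (by rw [hm0]; exact zero_lt_one)
      have hdpos := norm_vec_sub_pos (k := k) hmn
      rw [marg_eq, le_div_iff₀ (by positivity)] at h1
      unfold num at h1
      have h2 : ht (a m0) = 0 := by
        rw [hm0]
        unfold ht
        norm_num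
      rw [h2, zero_add] at h1
      have h3 : ‖t - vec m0‖ ^ 2 ≤ L ^ 2 := by
        rw [norm_sub_rev]
        exact pow_le_pow_left₀ (norm_nonneg _) hm0t 2
      have h4 : 0 ≤ ‖t - vec n‖ ^ 2 := by positivity
      have h5 : 2 * ht (a n) * H ≤ (L + 2) ^ 2 := by nlinarith
      have h6 : (L + 2) ^ 2 ≤ H ^ 2 := pow_le_pow_left₀ (by linarith) hH 2
      by_contra hcon
      push Not at hcon
      nlinarith
  set hn := ht (a n) with hhn_def
  have hpos : 0 < hn + H := by linarith
  set s' := (hn + s * H) / (hn + H) with hs'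
  have hs'eq : s' * (hn + H) = hn + s * H := by
    rw [hs']
    field_simp
  have hss' : s ≤ s' := by
    rw [hs', le_div_iff₀ hpos]
    nlinarith
  have hs'1 : s' < 1 := by
    rw [hs', div_lt_one hpos]
    nlinarith
  have h1s' : (1 - s) / 2 ≤ 1 - s' := by
    have h1 : (1 - s') * (hn + H) = (1 - s) * H := by nlinarith
    by_contra hcon
    push Not at hcon
    have h2 : (1 - s') * (hn + H) < (1 - s) / 2 * (hn + H) := by
      apply mul_lt_mul_of_pos_right hcon hpos
    nlinarith
  refine ⟨s', rfl, hss', hs'1, ?_⟩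
  intro m hm ham v
  have hmn : m ≠ n := (mem_nb_iff.mp hm).1
  have hdpos := norm_vec_sub_pos (k := k) hmn
  have hdN : N ≤ ‖(vec m - vec n : E k)‖ := hC.sep m n hmn ham han
  have hm1 := hmarg m hm ham
  refine le_trans ?_ (marg_add a (s * H) n m (vec n + s' • (t - vec n)) v)
  apply sub_le_sub_right
  rw [marg_eq, le_div_iff₀ (by positivity)]
  rw [marg_eq, le_div_iff₀ (by positivity)] at hm1
  -- the identity
  have e1 : ‖vec n + s' • (t - vec n) - vec n‖ ^ 2 = s' ^ 2 * ‖t - vec n‖ ^ 2 := by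
    rw [add_sub_cancel_left, norm_smul, mul_pow, Real.norm_eq_abs, sq_abs]
  have e2 : ‖vec n + s' • (t - vec n) - vec m‖ ^ 2 =
      s' ^ 2 * ‖t - vec n‖ ^ 2 - 2 * (s' * inner ℝ (t - vec n) (vec m - vec n : E k)) +
        ‖(vec m - vec n : E k)‖ ^ 2 := by
    have : vec n + s' • (t - vec n) - vec m = s' • (t - vec n) - (vec m - vec n : E k) := by abel
    rw [this, norm_sub_sq_real, norm_smul, mul_pow, Real.norm_eq_abs, sq_abs, real_inner_smul_left]
  have e3 : ‖t - vec m‖ ^ 2 = ‖t - vec n‖ ^ 2 - 2 * inner ℝ (t - vec n) (vec m - vec n : E k) +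
      ‖(vec m - vec n : E k)‖ ^ 2 := by
    rw [← norm_sub_sq_real]
    congr 2
    abel
  have hid : num a (s * H) n m (vec n + s' • (t - vec n)) =
      (1 - s') * (‖(vec m - vec n : E k)‖ ^ 2 + (ht (a m) - hn) ^ 2) + s' * num a H n m t := by
    unfold num
    rw [e1, e2, e3, ← hhn_def]
    have h7 : s * H = s' * (hn + H) - hn := by linarith
    rw [h7]
    ring
  rw [hid]
  set d := ‖(vec m - vec n : E k)‖ with hd
  have hsq : 0 ≤ (ht (a m) - hn) ^ 2 := sq_nonneg _
  have h8 : (1 - s) / 2 * d ^ 2 ≤ (1 - s') * (d ^ 2 + (ht (a m) - hn) ^ 2) := by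
    have : (1 - s) / 2 * d ^ 2 ≤ (1 - s') * d ^ 2 := mul_le_mul_of_nonneg_right h1s' (by positivity)
    have h9 : 0 ≤ (1 - s') * (ht (a m) - hn) ^ 2 := mul_nonneg (by linarith) hsq
    linarith
  have h10 : - (2 * d) ≤ s' * num a H n m t := by
    have h11 : s' * (-1 * (2 * d)) ≤ s' * num a H n m t :=
      mul_le_mul_of_nonneg_left hm1 (by linarith)
    nlinarith
  have h12 : (1 - s) * N / 4 * (2 * d) ≤ (1 - s) / 2 * d ^ 2 := by
    have : (1 - s) / 2 * (N * d) ≤ (1 - s) / 2 * (d * d) :=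
      mul_le_mul_of_nonneg_left (mul_le_mul_of_nonneg_right hdN hdpos.le) (by linarith)
    nlinarith
  linarith

end Pool.Agent.Run7.h937.RT
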